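import Pool.Agent.Lib.MP_36627d_co.Final

/-!
For every simplicial 4-polytope `P` without missing faces of dimension greater than `2`, the
ring `A(∂P)`, formed with the natural embedding, is level.
-/

open Pool.Agent.Lib.MP_36627d_co

theorem Pool.Agent.Results.MP_36627d_co.Levelness.result :
    ∀ (n : ℕ) (p : Fin n → Fin 4 → ℝ), IsSimplicialPolytope p →
      NoMissingFaceAboveTwo (boundaryComplex p) → IsLevel p :=
  fun _ p hp hm => level_of p hp hm
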